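import Pool.Agent.H948.HS.Stm

/-!
# PAT: the pattern of a walk with many cone times
-/

set_option autoImplicit false

namespace Pool.Agent.H120.HS

open Pool.Agent.H948.HS

variable {m : ℕ}

theorem ht_cone {v c2 : ℝ} {u : Om m} {T t0 t : ℕ} (h : Cone v c2 u T t0) (htT : t ≤ T) :
    |ht u 0 t - ht u 0 t0 - v * ((t : ℝ) - t0)| ≤ v / 2 * |(t : ℝ) - t0| + c2 := by
  have h1 := abs_coord_le ((S u 0 t - S u 0 t0) - (v * ((t : ℝ) - t0)) • e0 m) 0
  have h2 : ((S u 0 t - S u 0 t0) - (v * ((t : ℝ) - t0)) • e0 m) 0 =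
      ht u 0 t - ht u 0 t0 - v * ((t : ℝ) - t0) := by
    simp [ht, e0]
  rw [h2] at h1
  exact h1.trans (h t htT)

theorem ex_ab {v : ℝ} {l τ L T0 : ℕ} {u : Om m} (hv : 0 < v) (hτ : 4 * (l : ℝ) ≤ v * τ)
    (hT : T0 ≤ L) (h : Cone v (2 * l) u L T0) :
    ∃ a b : ℕ, a ≤ τ ∧ b ≤ τ ∧ a ≤ T0 ∧ T0 + b ≤ L ∧
      (∀ t ≤ T0, ht u 0 t ≤ ht u 0 (T0 - a)) ∧
      ∀ t, T0 ≤ t → t ≤ L → ht u 0 (T0 + b) ≤ ht u 0 t := by
  obtain ⟨p, hp, hpm⟩ := Finset.exists_max_image (Finset.range (T0 + 1)) (fun t => ht u 0 t)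
    ⟨0, Finset.mem_range.2 (Nat.succ_pos _)⟩
  obtain ⟨r, hr, hrm⟩ := Finset.exists_min_image (Finset.Icc T0 L) (fun t => ht u 0 t)
    ⟨T0, Finset.mem_Icc.2 ⟨le_rfl, hT⟩⟩
  rw [Finset.mem_range] at hp
  rw [Finset.mem_Icc] at hr
  refine ⟨T0 - p, r - T0, ?_, ?_, by omega, by omega, ?_, ?_⟩
  · by_contra hcon
    rw [not_le] at hcon
    have h1 := ht_cone h (t := p) (by omega)
    have h2 : ht u 0 T0 ≤ ht u 0 p := hpm T0 (Finset.mem_range.2 (Nat.lt_succ_self _))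
    have h3 : (τ : ℝ) + p < T0 := by exact_mod_cast (by omega : τ + p < T0)
    have h4 : (0 : ℝ) ≤ τ := Nat.cast_nonneg _
    have h5 : |(p : ℝ) - T0| = T0 - p := by
      rw [abs_of_neg (by linarith), neg_sub]
    rw [h5] at h1
    have h6 := (abs_le.1 h1).2
    have h7 : 0 < v * ((T0 : ℝ) - p - τ) := mul_pos hv (by linarith)
    nlinarith
  · by_contra hcon
    rw [not_le] at hcon
    have h1 := ht_cone h (t := r) hr.2
    have h2 : ht u 0 r ≤ ht u 0 T0 := hrm T0 (Finset.mem_Icc.2 ⟨le_rfl, hT⟩)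
    have h3 : (τ : ℝ) + T0 < r := by exact_mod_cast (by omega : τ + T0 < r)
    have h4 : (0 : ℝ) ≤ τ := Nat.cast_nonneg _
    have h5 : |(r : ℝ) - T0| = r - T0 := abs_of_pos (by linarith)
    rw [h5] at h1
    have h6 := (abs_le.1 h1).1
    have h7 : 0 < v * ((r : ℝ) - T0 - τ) := mul_pos hv (by linarith)
    nlinarith
  · intro t ht'
    have e : T0 - (T0 - p) = p := by omega
    rw [e]
    exact hpm t (Finset.mem_range.2 (by omega))
  · intro t h1 h2
    have e : T0 + (r - T0) = r := by omega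
    rw [e]
    exact hrm t (Finset.mem_Icc.2 ⟨h1, h2⟩)

/-- the nice piece between two neighbouring cone times -/
theorem nice_of {c v ζ : ℝ} {l τ L N T0 a b : ℕ} {u : Om m} (hv : 0 < v) (hv1 : v ≤ 1)
    (hζ : 0 < ζ) (hN : ζ / 4 * (N : ℝ) + 4 * τ ≤ ζ * ((N : ℝ) - 2 * τ))
    (hu : u ∈ Saw m c L) (hT' : T0 + N ≤ L) (h1 : Cone v (2 * l) u L T0)
    (h2 : Cone v (2 * l) u L (T0 + N)) (ha : T0 ≤ a) (ha' : a ≤ T0 + τ) (hab : a ≤ b)
    (hb : b ≤ T0 + N) (hb' : T0 + N ≤ b + τ)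
    (hmin : ∀ t, T0 ≤ t → t ≤ L → ht u 0 a ≤ ht u 0 t)
    (hmax : ∀ t ≤ T0 + N, ht u 0 t ≤ ht u 0 b)
    (hS : ‖S u T0 (T0 + N) - (v * (N : ℝ)) • e0 m‖ ≤ ζ / 4 * (N : ℝ)) :
    shift a u ∈ Nice m c v (4 * l + τ) ζ (b - a) := by
  have hS0 : ∀ {i j : ℕ}, i ≤ j → S u i j = S u 0 j - S u 0 i := by
    intro i j hij
    rw [← S_add u (Nat.zero_le i) hij, add_sub_cancel_left]
  have hh0 : ∀ {i j : ℕ}, i ≤ j → ht u i j = ht u 0 j - ht u 0 i := by
    intro i j hij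
    rw [← ht_add u (Nat.zero_le i) hij, add_sub_cancel_left]
  have haR : (T0 : ℝ) ≤ a := by exact_mod_cast ha
  have haR' : (a : ℝ) ≤ T0 + τ := by exact_mod_cast ha'
  have hbR : (b : ℝ) ≤ T0 + N := by exact_mod_cast hb
  have hbR' : (T0 : ℝ) + N ≤ b + τ := by exact_mod_cast hb'
  have hcb : ((b - a : ℕ) : ℝ) = b - a := Nat.cast_sub hab
  have hτ0 : (0 : ℝ) ≤ τ := Nat.cast_nonneg _
  refine ⟨saw_shift hu (by omega), ?_, ?_, ?_⟩
  · intro j hj
    have e : a + (b - a) = b := by omega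
    rw [ht_shift, ht_shift, add_zero, e, hh0 (by omega : a ≤ a + j), hh0 hab]
    have h3 := hmin (a + j) (by omega) (by omega)
    have h4 := hmax (a + j) (by omega)
    constructor <;> linarith
  · intro j hj
    rw [S_shift, S_shift, add_zero]
    have e : a + (b - a) = b := by omega
    rw [e]
    have hjR : (j : ℝ) ≤ b - a := by
      rw [← hcb]; exact_mod_cast hj
    have hj0 : (0 : ℝ) ≤ j := Nat.cast_nonneg _
    constructor
    · rw [hS0 (by omega : a ≤ a + j)]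
      have h3 := h1 (a + j) (by omega)
      have h4 := h1 a (by omega)
      have e1 : S u 0 (a + j) - S u 0 a - (v * (j : ℝ)) • e0 m =
          ((S u 0 (a + j) - S u 0 T0) - (v * (((a + j : ℕ) : ℝ) - T0)) • e0 m) -
          ((S u 0 a - S u 0 T0) - (v * ((a : ℝ) - T0)) • e0 m) := by
        have e2 : v * (j : ℝ) = v * (((a + j : ℕ) : ℝ) - T0) - v * ((a : ℝ) - T0) := by
          push_cast; ring
        rw [e2, sub_smul]
        abel
      rw [e1]
      refine (norm_sub_le _ _).trans ?_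
      have e3 : |((a + j : ℕ) : ℝ) - T0| = a + j - T0 := by
        push_cast
        exact abs_of_nonneg (by linarith)
      have e4 : |(a : ℝ) - T0| = a - T0 := abs_of_nonneg (by linarith)
      rw [e3] at h3
      rw [e4] at h4
      nlinarith
    · rw [hS0 (by omega : a + j ≤ b), hcb]
      have h3 := h2 b (by omega)
      have h4 := h2 (a + j) (by omega)
      have e1 : S u 0 b - S u 0 (a + j) - (v * ((b : ℝ) - a - j)) • e0 m =
          ((S u 0 b - S u 0 (T0 + N)) - (v * ((b : ℝ) - (T0 + N : ℕ))) • e0 m) -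
          ((S u 0 (a + j) - S u 0 (T0 + N)) - (v * (((a + j : ℕ) : ℝ) - (T0 + N : ℕ))) • e0 m) := by
        have e2 : v * ((b : ℝ) - a - j) = v * ((b : ℝ) - (T0 + N : ℕ)) -
            v * (((a + j : ℕ) : ℝ) - (T0 + N : ℕ)) := by
          push_cast; ring
        rw [e2, sub_smul]
        abel
      rw [e1]
      refine (norm_sub_le _ _).trans ?_
      have e3 : |((a + j : ℕ) : ℝ) - (T0 + N : ℕ)| = T0 + N - (a + j) := by
        push_cast
        rw [abs_of_nonpos (by linarith), neg_sub]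
      have e4 : |(b : ℝ) - (T0 + N : ℕ)| = T0 + N - b := by
        push_cast
        rw [abs_of_nonpos (by linarith), neg_sub]
      rw [e4] at h3
      rw [e3] at h4
      nlinarith
  · rw [S_shift, add_zero]
    have e : a + (b - a) = b := by omega
    rw [e, hcb]
    have e1 : S u a b - (v * ((b : ℝ) - a)) • e0 m =
        (S u T0 (T0 + N) - (v * (N : ℝ)) • e0 m) - (S u T0 a - (v * ((a : ℝ) - T0)) • e0 m) -
        (S u b (T0 + N) - (v * ((T0 : ℝ) + N - b)) • e0 m) := by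
      rw [hS0 hab, hS0 (by omega : T0 ≤ T0 + N), hS0 ha, hS0 hb]
      have e2 : v * ((b : ℝ) - a) = v * (N : ℝ) - v * ((a : ℝ) - T0) -
          v * ((T0 : ℝ) + N - b) := by ring
      rw [e2, sub_smul, sub_smul]
      abel
    rw [e1]
    have h3 : ‖S u T0 a - (v * ((a : ℝ) - T0)) • e0 m‖ ≤ 2 * τ := by
      refine (norm_sub_le _ _).trans ?_
      have h4 := norm_S_le u T0 a
      rw [Nat.cast_sub ha] at h4
      rw [norm_smul, norm_e0, mul_one, Real.norm_eq_abs,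
        abs_of_nonneg (mul_nonneg hv.le (by linarith))]
      nlinarith
    have h5 : ‖S u b (T0 + N) - (v * ((T0 : ℝ) + N - b)) • e0 m‖ ≤ 2 * τ := by
      refine (norm_sub_le _ _).trans ?_
      have h4 := norm_S_le u b (T0 + N)
      rw [Nat.cast_sub hb] at h4
      push_cast at h4
      rw [norm_smul, norm_e0, mul_one, Real.norm_eq_abs,
        abs_of_nonneg (mul_nonneg hv.le (by linarith))]
      nlinarith
    have h6 := norm_sub_le ((S u T0 (T0 + N) - (v * (N : ℝ)) • e0 m) -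
      (S u T0 a - (v * ((a : ℝ) - T0)) • e0 m)) (S u b (T0 + N) - (v * ((T0 : ℝ) + N - b)) • e0 m)
    have h7 := norm_sub_le (S u T0 (T0 + N) - (v * (N : ℝ)) • e0 m)
      (S u T0 a - (v * ((a : ℝ) - T0)) • e0 m)
    have h8 : ζ * ((N : ℝ) - 2 * τ) ≤ ζ * ((b : ℝ) - a) :=
      mul_le_mul_of_nonneg_left (by linarith) hζ.le
    linarith

theorem s_pat : S_PAT := by
  intro m c v ζ l M K s τ u C G hc hv hv1 hζ hl hs hτM hτ hN hu hC hG
  have hTL : ∀ k, k < K → (k * M + s) * l ≤ K * (M * l) := by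
    intro k hk
    have h1 : k * M + s ≤ K * M := by
      have h2 : (k + 1) * M ≤ K * M := Nat.mul_le_mul_right _ hk
      have h3 : (k + 1) * M = k * M + M := by ring
      omega
    calc (k * M + s) * l ≤ K * M * l := Nat.mul_le_mul_right _ h1
      _ = K * (M * l) := by ring
  have hex : ∀ k, ∃ a b : ℕ, a ≤ τ ∧ b ≤ τ ∧ (k ∈ C → a ≤ (k * M + s) * l ∧
      (k * M + s) * l + b ≤ K * (M * l) ∧
      (∀ t ≤ (k * M + s) * l, ht u 0 t ≤ ht u 0 ((k * M + s) * l - a)) ∧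
      ∀ t, (k * M + s) * l ≤ t → t ≤ K * (M * l) → ht u 0 ((k * M + s) * l + b) ≤ ht u 0 t) := by
    intro k
    by_cases hk : k ∈ C
    · obtain ⟨h1, h2⟩ := hC k hk
      obtain ⟨a, b, e1, e2, e3, e4, e5, e6⟩ := ex_ab hv hτ (hTL k h1) h2
      exact ⟨a, b, e1, e2, fun _ => ⟨e3, e4, e5, e6⟩⟩
    · exact ⟨0, 0, Nat.zero_le _, Nat.zero_le _, fun h => absurd h hk⟩
  choose α β hα hβ hab using hex
  refine ⟨α, β, fun k => ⟨hα k, hβ k⟩, fun k hk => ⟨(hab k hk).1, (hab k hk).2.1⟩, hu, ?_, ?_⟩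
  · intro k hk
    exact ⟨(hab k hk).2.2.1, (hab k hk).2.2.2⟩
  · intro k hk
    obtain ⟨hk1, hk2, hk3⟩ := hG k hk
    obtain ⟨-, -, -, hmin⟩ := hab k hk1
    obtain ⟨ha2, -, hmax, -⟩ := hab (k + 1) hk2
    have hT : ((k + 1) * M + s) * l = (k * M + s) * l + M * l := by ring
    have hL := hTL (k + 1) (hC (k + 1) hk2).1
    have hc1 := (hC k hk1).2
    have hc2 := (hC (k + 1) hk2).2
    have hα1 := hα (k + 1)
    have hβ1 := hβ k
    show shift ((k * M + s) * l + β k) u ∈ Nice m c v (4 * l + τ) ζ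
      (((k + 1) * M + s) * l - α (k + 1) - ((k * M + s) * l + β k))
    rw [hT] at ha2 hmax hL hc2 hk3 ⊢
    exact nice_of hv hv1 hζ hN hu hL hc1 hc2 (by omega) (by omega) (by omega) (by omega) (by omega)
      hmin hmax hk3

end Pool.Agent.H120.HS
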